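import Mathlib

set_option autoImplicit false

/-! Definitions for the smoothability defect of finite subschemes of affine space (MP_ee5b76_ag).

A finite subscheme of affine `n`-space over `k` is given by an ideal `I` of the polynomial ring
`MvPolynomial (Fin n) k` whose quotient is a finite-dimensional `k`-vector space. -/

namespace Pool.Agent.H17.Defect

open scoped TensorProduct PowerSeries

universe u v

/-- The finite scheme `Spec A` is *smoothable*: there is a finite flat `k⟦X⟧`-algebra `B` whose generic fibre
`k((X)) ⊗ B` is geometrically reduced and whose special fibre `B / X B` is isomorphic to `A` as a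
`k`-algebra. -/
def IsSmoothable (k : Type u) (A : Type v) [Field k] [CommRing A] [Algebra k A] : Prop :=
  ∃ (B : Type u) (_ : CommRing B) (_ : Algebra k⟦X⟧ B) (_ : Algebra k B)
    (_ : IsScalarTower k k⟦X⟧ B),
    Module.Finite k⟦X⟧ B ∧ Module.Flat k⟦X⟧ B ∧
    Algebra.IsGeometricallyReduced (LaurentSeries k) (LaurentSeries k ⊗[k⟦X⟧] B) ∧
    Nonempty ((B ⧸ Ideal.span {algebraMap k⟦X⟧ B PowerSeries.X}) ≃ₐ[k] A)

/-- The degree `dim_k k[x₁, …, xₙ] / I` of the closed subscheme of affine space with ideal `I`. -/
noncomputable def deg {k : Type u} [Field k] {n : ℕ} (I : Ideal (MvPolynomial (Fin n) k)) : ℕ :=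
  Module.finrank k (MvPolynomial (Fin n) k ⧸ I)

/-- The smoothability defect of the closed subscheme `Γ` of affine space with ideal `I`: the least value of
`deg Γ' - deg Γ` over all finite smoothable closed subschemes `Γ'` (with ideal `J ≤ I`) of the same
affine space which contain `Γ`. -/
noncomputable def defect {k : Type u} [Field k] {n : ℕ} (I : Ideal (MvPolynomial (Fin n) k)) : ℕ :=
  sInf {m : ℕ | ∃ J : Ideal (MvPolynomial (Fin n) k), J ≤ I ∧
    FiniteDimensional k (MvPolynomial (Fin n) k ⧸ J) ∧
    IsSmoothable k (MvPolynomial (Fin n) k ⧸ J) ∧ deg J = deg I + m}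

end Pool.Agent.H17.Defect
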