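import Mathlib
import Pool.Agent.H17.DefectDefs

set_option autoImplicit false

/-! Auxiliary lemmas for the smoothability defect (MP_ee5b76_ag). -/

namespace Pool.Agent.H17.Defect

open scoped TensorProduct PowerSeries

universe u v

/-- A reduced finite-dimensional commutative algebra over an algebraically closed field is a finite
power of the field. -/
theorem exists_algEquiv_pi (E : Type u) (A : Type v) [Field E] [IsAlgClosed E] [CommRing A] [Algebra E A]
    [Module.Finite E A] [IsReduced A] :
    ∃ D : ℕ, D = Module.finrank E A ∧ Nonempty (A ≃ₐ[E] (Fin D → E)) := by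
  classical
  have : IsArtinianRing A := IsArtinianRing.of_finite E A
  have hfin : Finite (MaximalSpectrum A) := inferInstance
  have := Fintype.ofFinite (MaximalSpectrum A)
  let e1 : A ≃ₐ[E] (∀ I : MaximalSpectrum A, A ⧸ I.asIdeal) := (IsArtinianRing.equivPi A).restrictScalars E
  have hb : ∀ I : MaximalSpectrum A, Function.Bijective (algebraMap E (A ⧸ I.asIdeal)) := by
    intro I
    let _ : Field (A ⧸ I.asIdeal) := Ideal.Quotient.field I.asIdeal
    exact IsAlgClosed.algebraMap_bijective_of_isIntegral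
  let e2 : ∀ I : MaximalSpectrum A, (A ⧸ I.asIdeal) ≃ₐ[E] E := fun I =>
    (AlgEquiv.ofBijective (Algebra.ofId E (A ⧸ I.asIdeal)) (hb I)).symm
  let e3 : A ≃ₐ[E] (MaximalSpectrum A → E) := e1.trans (AlgEquiv.piCongrRight e2)
  have hcard : Fintype.card (MaximalSpectrum A) = Module.finrank E A := by
    rw [e3.toLinearEquiv.finrank_eq, Module.finrank_pi]
  refine ⟨Module.finrank E A, rfl, ⟨e3.trans ?_⟩⟩
  exact AlgEquiv.piCongrLeft E (fun _ => E) (Fintype.equivFinOfCardEq hcard)

/-- More polynomials than variables are algebraically dependent. -/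
theorem exists_dep (k : Type u) [Field k] {ι σ : Type} [Fintype ι] [Fintype σ]
    (h : Fintype.card σ < Fintype.card ι) (g : ι → MvPolynomial σ k) :
    ∃ F : MvPolynomial ι k, F ≠ 0 ∧ MvPolynomial.aeval g F = 0 := by
  by_contra hne
  push Not at hne
  have hind : AlgebraicIndependent k g := by
    rw [AlgebraicIndependent, injective_iff_map_eq_zero]
    intro F hF
    by_contra hF0
    exact hne F hF0 hF
  have h1 := hind.lift_cardinalMk_le_trdeg
  rw [MvPolynomial.trdeg_of_isDomain] at h1
  simp at h1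
  omega

/-- Index set for tensors of format `m × m × e`. -/
abbrev TIdx (m e : ℕ) := Fin m × Fin m × Fin e

/-- For `D (2 m + e) < m ^ 2 e` there is a nonzero polynomial vanishing at all tensors of rank at most `D`,
over every ring over `k`. -/
theorem exists_rank_eq (k : Type u) [Field k] (m e D : ℕ) (h : (m + m + e) * D < m * (m * e)) :
    ∃ F : MvPolynomial (TIdx m e) k, F ≠ 0 ∧
      ∀ (R : Type v) [CommRing R] (φ : k →+* R) (D' : ℕ), D' ≤ D →
        ∀ (β γ : Fin m → Fin D' → R) (lam : Fin e → Fin D' → R),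
        MvPolynomial.eval₂ φ (fun q : TIdx m e => ∑ s, lam q.2.2 s * (β q.1 s * γ q.2.1 s)) F = 0 := by
  classical
  let σ := (Fin m × Fin D) ⊕ (Fin m × Fin D) ⊕ (Fin e × Fin D)
  let g : TIdx m e → MvPolynomial σ k := fun q => ∑ s : Fin D,
    MvPolynomial.X (Sum.inr (Sum.inr (q.2.2, s))) *
      (MvPolynomial.X (Sum.inl (q.1, s)) * MvPolynomial.X (Sum.inr (Sum.inl (q.2.1, s))))
  obtain ⟨F, hF0, hF⟩ := exists_dep k (ι := TIdx m e) (σ := σ)
    (by simp only [σ, Fintype.card_sum, Fintype.card_prod, Fintype.card_fin]; nlinarith) g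
  refine ⟨F, hF0, ?_⟩
  intro R _ φ D' hD' β γ lam
  -- extend by zero
  let ext : (Fin D' → R) → Fin D → R := fun x s => if hs : s.val < D' then x ⟨s.val, hs⟩ else 0
  let vals : σ → R := Sum.elim (fun p => ext (β p.1) p.2)
    (Sum.elim (fun p => ext (γ p.1) p.2) (fun p => ext (lam p.1) p.2))
  have h1 : MvPolynomial.eval₂ φ vals (MvPolynomial.aeval g F) = 0 := by
    rw [hF, MvPolynomial.eval₂_zero]
  have h2 : MvPolynomial.eval₂ φ vals (MvPolynomial.aeval g F)
      = MvPolynomial.eval₂ φ (fun q => MvPolynomial.eval₂ φ vals (g q)) F := 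
    MvPolynomial.eval₂Hom_bind₁ φ vals g F
  rw [h2] at h1
  convert h1 using 2
  funext q
  simp only [g, vals, MvPolynomial.eval₂_sum, MvPolynomial.eval₂_mul, MvPolynomial.eval₂_X,
    Sum.elim_inl, Sum.elim_inr]
  -- compare the two sums
  have h3 : ∀ s : Fin D', (lam q.2.2 s * (β q.1 s * γ q.2.1 s))
      = (fun s : Fin D => ext (lam q.2.2) s * (ext (β q.1) s * ext (γ q.2.1) s)) (Fin.castLE hD' s) := by
    intro s
    simp [ext]
  rw [Finset.sum_congr rfl (fun s _ => h3 s)]
  have h4 := Finset.sum_map Finset.univ ⟨Fin.castLE hD', Fin.castLE_injective hD'⟩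
    (fun s : Fin D => ext (lam q.2.2) s * (ext (β q.1) s * ext (γ q.2.1) s))
  refine Eq.trans h4.symm ?_
  apply Finset.sum_subset (Finset.subset_univ _)
  intro s _ hs
  have : ¬ s.val < D' := by
    intro hlt
    apply hs
    rw [Finset.mem_map]
    exact ⟨⟨s.val, hlt⟩, Finset.mem_univ _, by ext; simp⟩
  simp [ext, this]

/-- A smoothable algebra is finite-dimensional. -/
theorem IsSmoothable.finite {k : Type u} [Field k] {A : Type v} [CommRing A] [Algebra k A]
    (hA : IsSmoothable k A) : Module.Finite k A := by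
  obtain ⟨B, _, _, _, _, hfin, hflat, hred, ⟨Ψ⟩⟩ := hA
  have h1 : Module.Finite k⟦X⟧ (B ⧸ Ideal.span {algebraMap k⟦X⟧ B PowerSeries.X}) := inferInstance
  have h2 : Module.Finite k (B ⧸ Ideal.span {algebraMap k⟦X⟧ B PowerSeries.X}) := by
    obtain ⟨s, hs⟩ := h1.fg_top
    refine ⟨⟨s, ?_⟩⟩
    rw [eq_top_iff]
    intro x _
    have hx : x ∈ Submodule.span k⟦X⟧ (s : Set (B ⧸ Ideal.span {algebraMap k⟦X⟧ B PowerSeries.X})) := by
      rw [hs]
      trivial
    induction hx using Submodule.span_induction with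
    | mem x hx => exact Submodule.subset_span hx
    | zero => exact Submodule.zero_mem _
    | add x y _ _ hx hy => exact Submodule.add_mem _ (hx trivial) (hy trivial)
    | smul r x _ hx =>
      obtain ⟨b, rfl⟩ := Ideal.Quotient.mk_surjective x
      have h1 : r = (PowerSeries.mk fun p => PowerSeries.coeff (p + 1) r) * PowerSeries.X
          + PowerSeries.C (PowerSeries.constantCoeff r) := PowerSeries.eq_shift_mul_X_add_const r
      have h3 : r • Ideal.Quotient.mk (Ideal.span {algebraMap k⟦X⟧ B PowerSeries.X}) b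
          = (PowerSeries.constantCoeff r) • Ideal.Quotient.mk (Ideal.span {algebraMap k⟦X⟧ B PowerSeries.X}) b := by
        have h4 : r • b - (PowerSeries.constantCoeff r) • b
            ∈ Ideal.span {algebraMap k⟦X⟧ B PowerSeries.X} := by
          have h5 : (PowerSeries.constantCoeff r) • b = PowerSeries.C (PowerSeries.constantCoeff r) • b := by
            have : (PowerSeries.C (PowerSeries.constantCoeff r) : k⟦X⟧)
              = (PowerSeries.constantCoeff r) • (1 : k⟦X⟧) := by
              rw [PowerSeries.smul_eq_C_mul, mul_one]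
            rw [this, smul_assoc, one_smul]
          have h6 : r - PowerSeries.C (PowerSeries.constantCoeff r)
              = (PowerSeries.mk fun p => PowerSeries.coeff (p + 1) r) * PowerSeries.X :=
            sub_eq_of_eq_add h1
          rw [h5, ← sub_smul, h6, mul_smul, Algebra.smul_def, Algebra.smul_def]
          exact Ideal.mul_mem_left _ _ (Ideal.mul_mem_right _ _ (Ideal.subset_span rfl))
        exact Ideal.Quotient.eq.2 h4
      rw [h3]
      exact Submodule.smul_mem _ _ (hx trivial)
  exact Module.Finite.equiv Ψ.toLinearEquiv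

/-- The key vanishing statement. -/
theorem key_vanish (k : Type u) [Field k] (A : Type v) [CommRing A] [Algebra k A] (hA : IsSmoothable k A)
    (m e D : ℕ) (hD : Module.finrank k A ≤ D) (F : MvPolynomial (TIdx m e) k)
    (hF : ∀ (R : Type u) [CommRing R] (φ : k →+* R) (D' : ℕ), D' ≤ D →
        ∀ (β γ : Fin m → Fin D' → R) (lam : Fin e → Fin D' → R),
        MvPolynomial.eval₂ φ (fun q : TIdx m e => ∑ s, lam q.2.2 s * (β q.1 s * γ q.2.1 s)) F = 0)
    (v w : Fin m → A) (ℓ : Fin e → (A →ₗ[k] k)) :
    MvPolynomial.eval (fun q : TIdx m e => ℓ q.2.2 (v q.1 * w q.2.1)) F = 0 := by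
  classical
  obtain ⟨B, _, _, _, _, hfin, hflat, hred, ⟨Ψ⟩⟩ := hA
  let R := k⟦X⟧
  let K := LaurentSeries k
  let E := AlgebraicClosure K
  have hfree : Module.Free R B := Module.free_of_flat_of_isLocalRing
  let n := Module.finrank R B
  let b : Module.Basis (Fin n) R B := Module.finBasis R B
  let π : B →ₐ[k] A := (Ψ : (B ⧸ Ideal.span {algebraMap k⟦X⟧ B PowerSeries.X}) →ₐ[k] A).comp
    (Ideal.Quotient.mkₐ k _)
  have hπapp : ∀ a : B, π a = Ψ (Ideal.Quotient.mk _ a) := fun a => rfl
  have hπ0 : ∀ a : B, π (PowerSeries.X (R := k) • a) = 0 := by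
    intro a
    rw [hπapp, Algebra.smul_def, Ideal.Quotient.eq_zero_iff_mem.2, map_zero]
    exact Ideal.mul_mem_right _ _ (Ideal.subset_span rfl)
  have hπs : ∀ (r : R) (a : B), π (r • a) = PowerSeries.constantCoeff r • π a := by
    intro r a
    have h1 : r = PowerSeries.X * (PowerSeries.mk fun p => PowerSeries.coeff (p + 1) r)
        + PowerSeries.C (PowerSeries.constantCoeff r) := PowerSeries.eq_X_mul_shift_add_const r
    have h2 : PowerSeries.C (PowerSeries.constantCoeff r) • a = (PowerSeries.constantCoeff r) • a := by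
      have : (PowerSeries.C (PowerSeries.constantCoeff r) : R)
        = (PowerSeries.constantCoeff r) • (1 : R) := by
        rw [PowerSeries.smul_eq_C_mul, mul_one]
      rw [this, smul_assoc, one_smul]
    calc π (r • a) = π ((PowerSeries.X * (PowerSeries.mk fun p => PowerSeries.coeff (p + 1) r)
        + PowerSeries.C (PowerSeries.constantCoeff r)) • a) := by rw [← h1]
      _ = PowerSeries.constantCoeff r • π a := by
        rw [add_smul, map_add, mul_smul, hπ0, zero_add, h2, map_smul]
  have hπsurj : Function.Surjective π :=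
    Ψ.surjective.comp Ideal.Quotient.mk_surjective
  have hπker : ∀ a : B, π a = 0 → ∃ c : B, a = PowerSeries.X (R := k) • c := by
    intro a ha
    rw [hπapp, map_eq_zero_iff _ Ψ.injective, Ideal.Quotient.eq_zero_iff_mem,
      Ideal.mem_span_singleton'] at ha
    obtain ⟨c, hc⟩ := ha
    exact ⟨c, by rw [Algebra.smul_def, ← hc, mul_comm]⟩
  -- rank comparison
  have hAfin : Module.Finite k A := by
    refine Module.Finite.of_surjective
      (Fintype.linearCombination k (fun s => π (b s)) : (Fin n → k) →ₗ[k] A) ?_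
    intro x
    obtain ⟨a, rfl⟩ := hπsurj x
    refine ⟨fun s => PowerSeries.constantCoeff (b.repr a s), ?_⟩
    rw [Fintype.linearCombination_apply]
    conv_rhs => rw [← b.sum_repr a, map_sum]
    exact Finset.sum_congr rfl (fun s _ => (hπs _ _).symm)
  have hli : LinearIndependent k (fun s => π (b s)) := by
    rw [Fintype.linearIndependent_iff]
    intro c hc s
    have h1 : π (∑ s, (PowerSeries.C (c s) : R) • b s) = 0 := by
      rw [map_sum, ← hc]
      apply Finset.sum_congr rfl
      intro s _
      rw [hπs, PowerSeries.constantCoeff_C]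
    obtain ⟨d, hd⟩ := hπker _ h1
    have h2 := congrArg (fun x => b.repr x s) hd
    simp only [b.repr_sum_self, map_smul, Finsupp.smul_apply] at h2
    have h3 := congrArg PowerSeries.constantCoeff h2
    simpa using h3
  have hn : n ≤ D := by
    have := hli.fintype_card_le_finrank
    rw [Fintype.card_fin] at this
    exact this.trans hD
  -- lift the functionals
  let lt : Fin e → (B →ₗ[R] R) := fun l => b.constr R (fun s => PowerSeries.C (ℓ l (π (b s))))
  have hlt : ∀ l a, PowerSeries.constantCoeff (lt l a) = ℓ l (π a) := by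
    intro l a
    conv_rhs => rw [← b.sum_repr a]
    rw [Module.Basis.constr_apply_fintype]
    simp only [map_sum, hπs, map_smul, smul_eq_mul, map_mul, PowerSeries.constantCoeff_C]
    rfl
  -- pass to the geometric generic fibre
  have hred' : IsReduced (E ⊗[K] (K ⊗[R] B)) :=
    (Algebra.isGeometricallyReduced_field_iff K (K ⊗[R] B)).1 hred
  obtain ⟨D', hD', ⟨Φ⟩⟩ := exists_algEquiv_pi E (E ⊗[K] (K ⊗[R] B))
  have hD'n : D' = n := by
    rw [hD', Module.finrank_baseChange, Module.finrank_baseChange]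
  let i : B →+* E ⊗[K] (K ⊗[R] B) :=
    (Algebra.TensorProduct.includeRight : (K ⊗[R] B) →ₐ[K] E ⊗[K] (K ⊗[R] B)).toRingHom.comp
      (Algebra.TensorProduct.includeRight : B →ₐ[R] K ⊗[R] B).toRingHom
  let ρ : R →+* E := (algebraMap K E).comp (algebraMap R K)
  let ψ1 : Fin e → (K ⊗[R] B →ₗ[K] K) := fun l =>
    ((Algebra.linearMap R K).comp (lt l)).liftBaseChange K
  let ψ2 : Fin e → (E ⊗[K] (K ⊗[R] B) →ₗ[E] E) := fun l =>
    ((Algebra.linearMap K E).comp (ψ1 l)).liftBaseChange E
  have hψ : ∀ l a, ψ2 l (i a) = ρ (lt l a) := by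
    intro l a
    have h1 : i a = (1 : E) ⊗ₜ[K] ((1 : K) ⊗ₜ[R] a) := rfl
    rw [h1]
    simp only [ψ2, ψ1, LinearMap.liftBaseChange_tmul, LinearMap.comp_apply, one_smul,
      Algebra.linearMap_apply, ρ, RingHom.comp_apply]
  -- decompose functionals
  have hdec : ∀ l x, ψ2 l x = ∑ s : Fin D', ψ2 l (Φ.symm (Pi.single s 1)) * Φ x s := by
    intro l x
    have h1 : x = ∑ s : Fin D', Φ x s • Φ.symm (Pi.single s 1) := by
      apply Φ.injective
      rw [map_sum]
      simp only [map_smul, AlgEquiv.apply_symm_apply]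
      funext t
      simp [Finset.sum_apply, Pi.single_apply]
    conv_lhs => rw [h1]
    rw [map_sum]
    apply Finset.sum_congr rfl
    intro s _
    rw [map_smul, smul_eq_mul, mul_comm]
  choose vt hvt using fun j => hπsurj (v j)
  choose wt hwt using fun j => hπsurj (w j)
  have h5 := hF E (ρ.comp PowerSeries.C) D' (hD'n.le.trans hn) (fun j s => Φ (i (vt j)) s)
    (fun j s => Φ (i (wt j)) s) (fun l s => ψ2 l (Φ.symm (Pi.single s 1)))
  have h6 : (fun q : TIdx m e => ∑ s, ψ2 q.2.2 (Φ.symm (Pi.single s 1)) *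
      (Φ (i (vt q.1)) s * Φ (i (wt q.2.1)) s)) = fun q : TIdx m e => ρ (lt q.2.2 (vt q.1 * wt q.2.1)) := by
    funext q
    rw [← hψ, hdec]
    apply Finset.sum_congr rfl
    intro s _
    rw [map_mul, map_mul, Pi.mul_apply]
  rw [h6] at h5
  have h7 : ρ (MvPolynomial.eval₂ PowerSeries.C (fun q : TIdx m e => lt q.2.2 (vt q.1 * wt q.2.1)) F) = 0 := by
    rw [MvPolynomial.eval₂_comp_left]
    exact h5
  have hρ : Function.Injective ρ :=
    (algebraMap K E).injective.comp (IsFractionRing.injective R K)
  have h8 := (map_eq_zero_iff ρ hρ).1 h7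
  have h9 := congrArg PowerSeries.constantCoeff h8
  rw [MvPolynomial.eval₂_comp_left, map_zero] at h9
  rw [← h9]
  have h10 : (PowerSeries.constantCoeff (R := k)).comp PowerSeries.C = RingHom.id k := by
    ext x
    simp
  have h11 : (PowerSeries.constantCoeff ∘ fun q : TIdx m e => (lt q.2.2) (vt q.1 * wt q.2.1))
      = fun q : TIdx m e => (ℓ q.2.2) (v q.1 * w q.2.1) := by
    funext q
    simp only [Function.comp_apply]
    rw [hlt, map_mul, hvt, hwt]
  rw [h10, h11]
  rfl

end Pool.Agent.H17.Defect
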