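import Pool.Agent.H17.DefectAux

set_option autoImplicit false

/-! Every finite scheme with `𝔪 ^ 3 = 0` is contained in a smoothable one. -/

namespace Pool.Agent.H17.Defect

open scoped TensorProduct PowerSeries

universe u v

section container

variable (k : Type u) [Field k] (n : ℕ) (c : Fin 3 → k)

/-- coordinate functions on the grid, scaled by the parameter of the power series ring -/
noncomputable def gx (i : Fin n) : (Fin n → Fin 3) → k⟦X⟧ :=
  fun p => PowerSeries.X * PowerSeries.C (c (p i))

/-- the total algebra of the family -/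
noncomputable abbrev famB : Subalgebra k⟦X⟧ ((Fin n → Fin 3) → k⟦X⟧) :=
  (MvPolynomial.aeval (gx k n c) : MvPolynomial (Fin n) k⟦X⟧ →ₐ[k⟦X⟧] _).range

theorem famB_finite : Module.Finite k⟦X⟧ (famB k n c) := by
  have : IsNoetherian k⟦X⟧ ((Fin n → Fin 3) → k⟦X⟧) := inferInstance
  exact Module.Finite.of_injective (famB k n c).val.toLinearMap Subtype.val_injective

theorem famB_flat : Module.Flat k⟦X⟧ (famB k n c) := by
  have := famB_finite k n c
  have : Module.IsTorsionFree k⟦X⟧ (famB k n c) :=
    Function.Injective.moduleIsTorsionFree (famB k n c).val Subtype.val_injective (by intros; rfl)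
  infer_instance

theorem famB_red : Algebra.IsGeometricallyReduced (LaurentSeries k) (LaurentSeries k ⊗[k⟦X⟧] (famB k n c)) := by
  classical
  let K := LaurentSeries k
  let P := Fin n → Fin 3
  have hflatK : Module.Flat k⟦X⟧ K := IsLocalization.flat K (nonZeroDivisors k⟦X⟧)
  let f1 : K ⊗[k⟦X⟧] (famB k n c) →ₐ[K] K ⊗[k⟦X⟧] (P → k⟦X⟧) :=
    Algebra.TensorProduct.map (AlgHom.id K K) (famB k n c).val
  have hf1 : Function.Injective f1 :=
    Module.Flat.lTensor_preserves_injective_linearMap (M := K) (famB k n c).val.toLinearMap Subtype.val_injective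
  let f2 : K ⊗[k⟦X⟧] (P → k⟦X⟧) ≃ₐ[K] (P → K) := Algebra.TensorProduct.piScalarRight k⟦X⟧ K K P
  have hP : Algebra.IsGeometricallyReduced K (P → K) := by
    rw [Algebra.isGeometricallyReduced_field_iff]
    exact isReduced_of_injective
      (Algebra.TensorProduct.piScalarRight K (AlgebraicClosure K) (AlgebraicClosure K) P)
      (AlgEquiv.injective _)
  have h3 : Function.Injective (f2.toAlgHom.comp f1) := f2.injective.comp hf1
  exact Algebra.IsGeometricallyReduced.of_injective (f2.toAlgHom.comp f1) h3

/-- the special fibre of the family -/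
noncomputable abbrev sfib : Type u :=
  (famB k n c) ⧸ Ideal.span {algebraMap k⟦X⟧ (famB k n c) PowerSeries.X}

/-- the parametrisation of the family -/
noncomputable def toB : MvPolynomial (Fin n) k⟦X⟧ →ₐ[k⟦X⟧] famB k n c :=
  (MvPolynomial.aeval (gx k n c) : MvPolynomial (Fin n) k⟦X⟧ →ₐ[k⟦X⟧] _).rangeRestrict

theorem toB_surj : Function.Surjective (toB k n c) := AlgHom.rangeRestrict_surjective _

/-- the map from the polynomial ring to the special fibre -/
noncomputable def theta : MvPolynomial (Fin n) k →ₐ[k] sfib k n c :=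
  MvPolynomial.aeval (fun i => Ideal.Quotient.mk _ (toB k n c (MvPolynomial.X i)))

theorem theta_eq (h : MvPolynomial (Fin n) k⟦X⟧) :
    Ideal.Quotient.mk _ (toB k n c h) = theta k n c (MvPolynomial.map PowerSeries.constantCoeff h) := by
  have key : ((Ideal.Quotient.mk (Ideal.span {algebraMap k⟦X⟧ (famB k n c) PowerSeries.X})).comp
      (toB k n c).toRingHom) = (theta k n c).toRingHom.comp (MvPolynomial.map PowerSeries.constantCoeff) := by
    apply MvPolynomial.ringHom_ext
    · intro r
      have h1 : r = PowerSeries.X * (PowerSeries.mk fun p => PowerSeries.coeff (p + 1) r)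
          + PowerSeries.C (PowerSeries.constantCoeff r) := PowerSeries.eq_X_mul_shift_add_const r
      have h2 : toB k n c (MvPolynomial.C r) = algebraMap k⟦X⟧ (famB k n c) r :=
        (toB k n c).commutes r
      have h3 : theta k n c (MvPolynomial.C (PowerSeries.constantCoeff r))
          = Ideal.Quotient.mk _ (algebraMap k⟦X⟧ (famB k n c) (PowerSeries.C (PowerSeries.constantCoeff r))) := by
        have h4 := (theta k n c).commutes (PowerSeries.constantCoeff r)
        rw [MvPolynomial.algebraMap_eq] at h4
        rw [h4]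
        rfl
      show Ideal.Quotient.mk _ (toB k n c (MvPolynomial.C r))
        = theta k n c (MvPolynomial.map PowerSeries.constantCoeff (MvPolynomial.C r))
      rw [MvPolynomial.map_C, h3, h2, Ideal.Quotient.eq, ← map_sub]
      have h5 : r - PowerSeries.C (PowerSeries.constantCoeff r)
          = (PowerSeries.mk fun p => PowerSeries.coeff (p + 1) r) * PowerSeries.X := by
        conv_lhs => rw [h1]
        simp [mul_comm]
      rw [h5, map_mul]
      exact Ideal.mul_mem_left _ _ (Ideal.subset_span rfl)
    · intro i
      simp [theta]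
  exact RingHom.congr_fun key h

theorem theta_surj : Function.Surjective (theta k n c) := by
  intro y
  obtain ⟨b, rfl⟩ := Ideal.Quotient.mk_surjective y
  obtain ⟨h, rfl⟩ := toB_surj k n c b
  exact ⟨_, (theta_eq k n c h).symm⟩

/-- the ideal of the smoothable scheme -/
noncomputable abbrev cJ : Ideal (MvPolynomial (Fin n) k) := RingHom.ker (theta k n c)

theorem cJ_smoothable : IsSmoothable k (MvPolynomial (Fin n) k ⧸ cJ k n c) := by
  refine ⟨famB k n c, inferInstance, inferInstance, inferInstance, inferInstance, famB_finite k n c,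
    famB_flat k n c, famB_red k n c, ⟨?_⟩⟩
  exact (Ideal.quotientKerAlgEquivOfSurjective (theta_surj k n c)).symm

theorem cJ_coeff (hc : Function.Injective c) (f : MvPolynomial (Fin n) k) (hf : f ∈ cJ k n c)
    (v : Fin n →₀ ℕ) (hv : v.degree ≤ 2) : f.coeff v = 0 := by
  classical
  -- f (x) is divisible by the parameter
  have h0 : theta k n c f = 0 := hf
  have h1 : theta k n c f = Ideal.Quotient.mk _ (toB k n c (MvPolynomial.map PowerSeries.C f)) := by
    rw [theta_eq, MvPolynomial.map_map]
    congr 1
    have : (PowerSeries.constantCoeff (R := k)).comp PowerSeries.C = RingHom.id k := by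
      ext x
      simp
    rw [this, MvPolynomial.map_id]
  rw [h1, Ideal.Quotient.eq_zero_iff_mem, Ideal.mem_span_singleton'] at h0
  obtain ⟨b, hb⟩ := h0
  obtain ⟨h, rfl⟩ := toB_surj k n c b
  set u : MvPolynomial (Fin n) k⟦X⟧ := MvPolynomial.map PowerSeries.C f - MvPolynomial.C PowerSeries.X * h with hu
  have hu0 : toB k n c u = 0 := by
    rw [hu, map_sub, map_mul, ← hb, sub_eq_zero, mul_comm]
    congr 1
    exact ((toB k n c).commutes _).symm
  have hup : ∀ p : Fin n → Fin 3, MvPolynomial.aeval (gx k n c) u p = 0 := by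
    intro p
    have : (MvPolynomial.aeval (gx k n c) u : (Fin n → Fin 3) → k⟦X⟧) = 0 := congrArg Subtype.val hu0
    rw [this]
    rfl
  have hup2 : ∀ p : Fin n → Fin 3, ∑ d ∈ u.support,
      (PowerSeries.X ^ d.degree * u.coeff d) * PowerSeries.C (∏ i, c (p i) ^ d i) = 0 := by
    intro p
    have h2 : MvPolynomial.aeval (gx k n c) u p = MvPolynomial.eval (fun i => gx k n c i p) u := by
      exact MvPolynomial.map_aeval (gx k n c) (Pi.evalRingHom (fun _ : Fin n → Fin 3 => k⟦X⟧) p) u
    rw [← hup p, h2, MvPolynomial.eval_eq']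
    apply Finset.sum_congr rfl
    intro d _
    have h4 : ∏ i, (gx k n c i p) ^ d i = PowerSeries.X ^ d.degree * PowerSeries.C (∏ i, c (p i) ^ d i) := by
      simp only [gx, mul_pow, Finset.prod_mul_distrib, map_prod, map_pow]
      rw [Finset.prod_pow_eq_pow_sum, Finsupp.degree_eq_sum]
    rw [h4]
    ring
  -- extract the coefficient of degree r = v.degree
  set r := v.degree with hr
  let w : MvPolynomial (Fin n) k := ∑ d ∈ u.support,
    MvPolynomial.monomial d (PowerSeries.coeff r (PowerSeries.X ^ d.degree * u.coeff d))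
  have hwcoeff : ∀ d, w.coeff d = PowerSeries.coeff r (PowerSeries.X ^ d.degree * u.coeff d) := by
    intro d
    simp only [w, MvPolynomial.coeff_sum, MvPolynomial.coeff_monomial]
    rw [Finset.sum_ite_eq' u.support d]
    split_ifs with hd
    · rfl
    · rw [MvPolynomial.notMem_support_iff] at hd
      rw [hd]
      simp
  have hwdeg : w.totalDegree ≤ r := by
    apply Finset.sup_le
    intro d hd
    rw [MvPolynomial.mem_support_iff, hwcoeff, PowerSeries.coeff_X_pow_mul'] at hd
    by_contra hlt
    apply hd
    rw [if_neg]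
    intro hle
    exact hlt hle
  have hw0 : w = 0 := by
    apply MvPolynomial.eq_zero_of_eval_zero_at_prod_finset w (fun _ => Finset.univ.image c)
    · intro i
      rw [Finset.card_image_of_injective _ hc, Finset.card_univ, Fintype.card_fin]
      exact lt_of_le_of_lt ((MvPolynomial.degreeOf_le_totalDegree w i).trans hwdeg) (by omega)
    · intro x hx
      have hx' : ∀ i, ∃ j, c j = x i := by
        intro i
        simpa using hx i
      choose p hp using hx'
      have h5 := congrArg (PowerSeries.coeff r) (hup2 p)
      rw [map_sum, map_zero] at h5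
      rw [← h5, map_sum]
      apply Finset.sum_congr rfl
      intro d _
      rw [MvPolynomial.eval_monomial, PowerSeries.coeff_mul_C]
      congr 1
      rw [Finsupp.prod_fintype _ _ (by intro i; simp)]
      apply Finset.prod_congr rfl
      intro i _
      rw [hp]
  have h6 := hwcoeff v
  rw [hw0, ← hr, MvPolynomial.coeff_zero] at h6
  have h7 : PowerSeries.coeff r (PowerSeries.X ^ r * u.coeff v) = f.coeff v := by
    have := PowerSeries.coeff_X_pow_mul (u.coeff v) r 0
    rw [zero_add] at this
    rw [this, hu, MvPolynomial.coeff_sub, MvPolynomial.coeff_map, MvPolynomial.coeff_C_mul]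
    simp
  rw [← h7, ← h6]

end container

end Pool.Agent.H17.Defect
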