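import Pool.Agent.H17.DefectAux2

set_option autoImplicit false

/-! The smoothability defect is not bounded by a linear function of the degree. -/

namespace Pool.Agent.H17.Defect

open scoped TensorProduct PowerSeries

universe u v

section ideal

variable {k : Type u} [Field k]

theorem coeff_mul_low {σ : Type} (g f : MvPolynomial σ k) (hf : ∀ v : σ →₀ ℕ, v.degree ≤ 1 → f.coeff v = 0)
    (d : σ →₀ ℕ) (hd : d.degree ≤ 2) : (g * f).coeff d = g.coeff 0 * f.coeff d := by
  classical
  rw [MvPolynomial.coeff_mul, Finset.sum_eq_single (0, d)]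
  · rintro ⟨a, b⟩ hab hne
    rw [Finset.HasAntidiagonal.mem_antidiagonal] at hab
    simp only at hab
    have ha : a ≠ 0 := by
      rintro rfl
      apply hne
      rw [zero_add] at hab
      rw [hab]
    have ha' : a.degree ≠ 0 := by
      rwa [Ne, Finsupp.degree_eq_zero_iff]
    have h1 : a.degree + b.degree = d.degree := by
      rw [← map_add, hab]
    rw [hf b (by omega), mul_zero]
  · intro h
    exact absurd (by simp) h

/-- the monomial `x_i y_j` -/
noncomputable def mon (m : ℕ) (i j : Fin m) : Fin (m + m) →₀ ℕ :=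
  Finsupp.single (Fin.castAdd m i) 1 + Finsupp.single (Fin.natAdd m j) 1

theorem mon_degree (m : ℕ) (i j : Fin m) : (mon m i j).degree = 2 := by
  rw [mon, map_add, Finsupp.degree_single, Finsupp.degree_single]

theorem mon_inj (m : ℕ) (i j i' j' : Fin m) (h : mon m i j = mon m i' j') : i = i' ∧ j = j' := by
  classical
  have h1 := DFunLike.congr_fun h (Fin.castAdd m i)
  have h2 := DFunLike.congr_fun h (Fin.natAdd m j)
  have e1 : ∀ (a b : Fin m), Fin.natAdd m a ≠ Fin.castAdd m b := by
    intro a b hab
    have := congrArg Fin.val hab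
    simp only [Fin.val_natAdd, Fin.val_castAdd] at this
    omega
  rw [mon, mon, Finsupp.add_apply, Finsupp.add_apply, Finsupp.single_apply, Finsupp.single_apply,
    Finsupp.single_apply, Finsupp.single_apply] at h1 h2
  constructor
  · by_contra hne
    have h3 : ¬ (Fin.castAdd m i' = Fin.castAdd m i) := fun h => hne (Fin.castAdd_injective _ _ h).symm
    rw [if_pos rfl, if_neg (e1 j i), if_neg h3, if_neg (e1 j' i)] at h1
    omega
  · by_contra hne
    have h3 : ¬ (Fin.natAdd m j' = Fin.natAdd m j) := fun h => hne (Fin.natAdd_injective _ _ h).symm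
    rw [if_pos rfl, if_neg (e1 j i).symm, if_neg h3, if_neg (e1 j i').symm] at h2
    omega

/-- the functionals on quadrics given by the tensor `T` -/
noncomputable def lamT (m e : ℕ) (T : TIdx m e → k) (l : Fin e) : MvPolynomial (Fin (m + m)) k →ₗ[k] k :=
  ∑ i : Fin m, ∑ j : Fin m, T (i, j, l) • MvPolynomial.lcoeff k (mon m i j)

theorem lamT_apply (m e : ℕ) (T : TIdx m e → k) (l : Fin e) (f : MvPolynomial (Fin (m + m)) k) :
    lamT m e T l f = ∑ i : Fin m, ∑ j : Fin m, T (i, j, l) * f.coeff (mon m i j) := by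
  simp [lamT, LinearMap.sum_apply, MvPolynomial.lcoeff]

/-- the ideal of the scheme attached to the tensor `T` -/
def tIdeal (m e : ℕ) (T : TIdx m e → k) : Ideal (MvPolynomial (Fin (m + m)) k) where
  carrier := {f | (∀ v : Fin (m + m) →₀ ℕ, v.degree ≤ 1 → f.coeff v = 0) ∧ ∀ l : Fin e, lamT m e T l f = 0}
  zero_mem' := by
    constructor
    · intro v _
      exact MvPolynomial.coeff_zero v
    · intro l
      exact map_zero _
  add_mem' := by
    rintro f g ⟨hf1, hf2⟩ ⟨hg1, hg2⟩
    constructor
    · intro v hv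
      rw [MvPolynomial.coeff_add, hf1 v hv, hg1 v hv, add_zero]
    · intro l
      rw [map_add, hf2, hg2, add_zero]
  smul_mem' := by
    rintro g f ⟨hf1, hf2⟩
    rw [smul_eq_mul]
    constructor
    · intro v hv
      rw [coeff_mul_low g f hf1 v (by omega), hf1 v hv, mul_zero]
    · intro l
      rw [lamT_apply]
      have h1 : ∀ i j : Fin m, (g * f).coeff (mon m i j) = g.coeff 0 * f.coeff (mon m i j) := fun i j =>
        coeff_mul_low g f hf1 _ (mon_degree m i j).le
      simp only [h1]
      have h2 := hf2 l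
      rw [lamT_apply] at h2
      calc ∑ i : Fin m, ∑ j : Fin m, T (i, j, l) * (g.coeff 0 * f.coeff (mon m i j))
          = g.coeff 0 * ∑ i : Fin m, ∑ j : Fin m, T (i, j, l) * f.coeff (mon m i j) := by
            rw [Finset.mul_sum]
            apply Finset.sum_congr rfl
            intro i _
            rw [Finset.mul_sum]
            apply Finset.sum_congr rfl
            intro j _
            ring
        _ = 0 := by rw [h2, mul_zero]

theorem mem_tIdeal (m e : ℕ) (T : TIdx m e → k) (f : MvPolynomial (Fin (m + m)) k) :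
    f ∈ tIdeal m e T ↔
      (∀ v : Fin (m + m) →₀ ℕ, v.degree ≤ 1 → f.coeff v = 0) ∧ ∀ l : Fin e, lamT m e T l f = 0 := Iff.rfl

/-- the linear map whose kernel is `tIdeal` -/
noncomputable def Lam (m e : ℕ) (T : TIdx m e → k) :
    MvPolynomial (Fin (m + m)) k →ₗ[k] (k × (Fin (m + m) → k)) × (Fin e → k) :=
  ((MvPolynomial.lcoeff k 0).prod (LinearMap.pi fun a => MvPolynomial.lcoeff k (Finsupp.single a 1))).prod
    (LinearMap.pi fun l => lamT m e T l)

theorem ker_Lam (m e : ℕ) (T : TIdx m e → k) :
    LinearMap.ker (Lam m e T) = (tIdeal m e T).restrictScalars k := by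
  ext f
  have hL : Lam m e T f = ((f.coeff 0, fun a => f.coeff (Finsupp.single a 1)), fun l => lamT m e T l f) := rfl
  rw [LinearMap.mem_ker, Submodule.restrictScalars_mem, mem_tIdeal, hL, Prod.mk_eq_zero, Prod.mk_eq_zero]
  constructor
  · rintro ⟨⟨h0, h1⟩, h2⟩
    constructor
    · intro v hv
      rcases Nat.lt_or_ge v.degree 1 with h | h
      · have : v = 0 := by
          rw [← Finsupp.degree_eq_zero_iff]
          omega
        rw [this]
        exact h0
      · have h3 : v ∈ {d : Fin (m + m) →₀ ℕ | d.degree = 1} := by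
          show v.degree = 1
          omega
        rw [← Finsupp.range_single_one] at h3
        obtain ⟨a, rfl⟩ := h3
        exact congrFun h1 a
    · intro l
      exact congrFun h2 l
  · rintro ⟨h1, h2⟩
    refine ⟨⟨h1 0 (by simp), ?_⟩, ?_⟩
    · funext a
      exact h1 _ (by rw [Finsupp.degree_single])
    · funext l
      exact h2 l

theorem tIdeal_finite (m e : ℕ) (T : TIdx m e → k) :
    FiniteDimensional k (MvPolynomial (Fin (m + m)) k ⧸ tIdeal m e T) ∧
      deg (tIdeal m e T) ≤ 1 + (m + m) + e := by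
  have e1 : ((MvPolynomial (Fin (m + m)) k) ⧸ (tIdeal m e T).restrictScalars k) ≃ₗ[k]
      (MvPolynomial (Fin (m + m)) k ⧸ tIdeal m e T) := Submodule.Quotient.restrictScalarsEquiv k _
  have e2 : ((MvPolynomial (Fin (m + m)) k) ⧸ LinearMap.ker (Lam m e T)) ≃ₗ[k]
      LinearMap.range (Lam m e T) := (Lam m e T).quotKerEquivRange
  rw [ker_Lam] at e2
  let e3 := e1.symm.trans e2
  constructor
  · exact Module.Finite.equiv e3.symm
  · rw [deg, e3.finrank_eq]
    refine (Submodule.finrank_le _).trans ?_
    simp

/-- monomials of degree two -/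
theorem lamT_mul (m e : ℕ) (T : TIdx m e → k) (i j : Fin m) (l : Fin e) :
    lamT m e T l (MvPolynomial.X (Fin.castAdd m i) * MvPolynomial.X (Fin.natAdd m j)) = T (i, j, l) := by
  classical
  have h1 : (MvPolynomial.X (Fin.castAdd m i) * MvPolynomial.X (Fin.natAdd m j) : MvPolynomial (Fin (m + m)) k)
      = MvPolynomial.monomial (mon m i j) 1 := by
    rw [MvPolynomial.X, MvPolynomial.X, MvPolynomial.monomial_mul, one_mul, mon]
  rw [h1, lamT_apply, Finset.sum_eq_single i, Finset.sum_eq_single j]
  · rw [MvPolynomial.coeff_monomial, if_pos rfl, mul_one]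
  · intro j' _ hj'
    rw [MvPolynomial.coeff_monomial, if_neg, mul_zero]
    intro h
    exact hj' (mon_inj m i j i j' h).2.symm
  · intro h
    exact absurd (Finset.mem_univ _) h
  · intro i' _ hi'
    apply Finset.sum_eq_zero
    intro j' _
    rw [MvPolynomial.coeff_monomial, if_neg, mul_zero]
    intro h
    exact hi' (mon_inj m i j i' j' h).1.symm
  · intro h
    exact absurd (Finset.mem_univ _) h

/-- The functionals on the quotient by an ideal contained in `tIdeal`. -/
noncomputable def ellT (m e : ℕ) (T : TIdx m e → k) (J : Ideal (MvPolynomial (Fin (m + m)) k))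
    (hJ : J ≤ tIdeal m e T) (l : Fin e) : (MvPolynomial (Fin (m + m)) k ⧸ J) →ₗ[k] k :=
  ((J.restrictScalars k).liftQ (lamT m e T l) (fun _ hf => (hJ hf).2 l)).comp
    (Submodule.Quotient.restrictScalarsEquiv k J).symm.toLinearMap

theorem ellT_mk (m e : ℕ) (T : TIdx m e → k) (J : Ideal (MvPolynomial (Fin (m + m)) k))
    (hJ : J ≤ tIdeal m e T) (l : Fin e) (f : MvPolynomial (Fin (m + m)) k) :
    ellT m e T J hJ l (Ideal.Quotient.mk J f) = lamT m e T l f := rfl

end ideal

/-- Smoothability defects are not linearly bounded by the degree. -/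
theorem main (k : Type u) [Field k] [Infinite k] (C : ℕ) :
    ∃ (n : ℕ) (I : Ideal (MvPolynomial (Fin n) k)),
      1 ≤ n ∧ FiniteDimensional k (MvPolynomial (Fin n) k ⧸ I) ∧ C * deg I < defect I := by
  classical
  set c := C + 1 with hc
  set m := 8 * c + 1 with hm
  set e := m + m with he
  set D := c * (1 + (m + m) + e) with hD
  obtain ⟨F, hF0, hF⟩ := exists_rank_eq.{u, u} k m e D (by
    rw [hD, he, hm]
    nlinarith)
  -- a tensor where F does not vanish
  obtain ⟨T, hT⟩ : ∃ T : TIdx m e → k, MvPolynomial.eval T F ≠ 0 := by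
    by_contra hne
    push Not at hne
    apply hF0
    apply MvPolynomial.funext
    intro x
    rw [hne x, map_zero]
  obtain ⟨hfin, hdeg⟩ := tIdeal_finite m e T
  refine ⟨m + m, tIdeal m e T, by omega, hfin, ?_⟩
  -- nonemptiness
  let ci : Fin 3 → k := fun i => Infinite.natEmbedding k i.val
  have hci : Function.Injective ci := by
    intro a b hab
    exact Fin.ext ((Infinite.natEmbedding k).injective hab)
  have hne : {q : ℕ | ∃ J : Ideal (MvPolynomial (Fin (m + m)) k), J ≤ tIdeal m e T ∧
      FiniteDimensional k (MvPolynomial (Fin (m + m)) k ⧸ J) ∧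
      IsSmoothable k (MvPolynomial (Fin (m + m)) k ⧸ J) ∧ deg J = deg (tIdeal m e T) + q}.Nonempty := by
    have hsm := cJ_smoothable k (m + m) ci
    have hJfin := hsm.finite
    have hle : cJ k (m + m) ci ≤ tIdeal m e T := by
      intro f hf
      have h1 := cJ_coeff k (m + m) ci hci f hf
      refine ⟨fun v hv => h1 v (by omega), fun l => ?_⟩
      rw [lamT_apply]
      apply Finset.sum_eq_zero
      intro i _
      apply Finset.sum_eq_zero
      intro j _
      rw [h1 _ (mon_degree m i j).le, mul_zero]
    have hdle : deg (tIdeal m e T) ≤ deg (cJ k (m + m) ci) :=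
      LinearMap.finrank_le_finrank_of_surjective
        (f := (Ideal.Quotient.factorₐ k hle).toLinearMap) (Ideal.Quotient.factor_surjective hle)
    exact ⟨deg (cJ k (m + m) ci) - deg (tIdeal m e T), cJ k (m + m) ci, hle, hJfin, hsm, by omega⟩
  have hmem := Nat.sInf_mem hne
  change C * deg (tIdeal m e T) < sInf _
  obtain ⟨J, hJ, hJfin, hJs, hJd⟩ := hmem
  have hbig : D < deg J := by
    by_contra hle
    push Not at hle
    apply hT
    have h1 := key_vanish k (MvPolynomial (Fin (m + m)) k ⧸ J) hJs m e D hle F (fun R _ φ => hF R φ)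
      (fun i => Ideal.Quotient.mk J (MvPolynomial.X (Fin.castAdd m i)))
      (fun j => Ideal.Quotient.mk J (MvPolynomial.X (Fin.natAdd m j)))
      (fun l => ellT m e T J hJ l)
    rw [← h1]
    congr 2
    funext q
    rw [← map_mul, ellT_mk, lamT_mul]
  have h2 : c * deg (tIdeal m e T) ≤ D := Nat.mul_le_mul_left _ hdeg
  have h3 : c * deg (tIdeal m e T) = C * deg (tIdeal m e T) + deg (tIdeal m e T) := by
    rw [hc]
    ring
  omega

end Pool.Agent.H17.Defect
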